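import Mathlib

/-!
The integer matrix `M A B = C(|A ∩ B| - (m+1), 2m+1)` on the `(3m+2)`-subsets of a set of size
`6m+4`: unit diagonal, nonpositive off the diagonal, triangle-free support, small rank.
-/

namespace Pool.Agent.TH474.RR

set_option linter.dupNamespace false

open Finset

/-- the `(3m+2)`-subsets of a `(6m+4)`-set. -/
abbrev VV (m : ℕ) : Type := {A : Finset (Fin (6 * m + 4)) // A.card = 3 * m + 2}

/-- subsets of size at most `2m+1`. -/
abbrev RR (m : ℕ) : Type := {I : Finset (Fin (6 * m + 4)) // I.card ≤ 2 * m + 1}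

/-- absolute value of the off-diagonal entries. -/
def uu (m : ℕ) (A B : VV m) : ℕ :=
  if (A.1 ∩ B.1).card ≤ m then (3 * m + 1 - (A.1 ∩ B.1).card).choose (2 * m + 1) else 0

lemma uu_symm (m : ℕ) (A B : VV m) : uu m A B = uu m B A := by
  unfold uu; rw [inter_comm]

lemma uu_le (m : ℕ) (A B : VV m) : uu m A B ≤ (3 * m + 1).choose (2 * m + 1) := by
  unfold uu
  split_ifs with h
  · exact Nat.choose_le_choose _ (Nat.sub_le _ _)
  · positivity

lemma ww_le (m : ℕ) : (3 * m + 1).choose (2 * m + 1) * (2 * 4 ^ m) ≤ 3 * 27 ^ m := by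
  have h := add_pow (2 : ℕ) 1 (3 * m + 1)
  simp only [Nat.cast_id] at h
  have h1 : 2 ^ (2 * m + 1) * 1 ^ (3 * m + 1 - (2 * m + 1)) * (3 * m + 1).choose (2 * m + 1)
      ≤ ∑ k ∈ range (3 * m + 1 + 1), 2 ^ k * 1 ^ (3 * m + 1 - k) * (3 * m + 1).choose k := by
    exact Finset.single_le_sum (f := fun k => 2 ^ k * 1 ^ (3 * m + 1 - k) * (3 * m + 1).choose k)
      (fun _ _ => Nat.zero_le _) (Finset.mem_range.2 (by omega))
  rw [← h] at h1
  have e1 : (2 : ℕ) ^ (2 * m + 1) = 2 * 4 ^ m := by rw [pow_add, pow_mul]; norm_num; ring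
  have e2 : (2 + 1 : ℕ) ^ (3 * m + 1) = 3 * 27 ^ m := by rw [pow_add, pow_mul]; norm_num; ring
  rw [e1, e2, one_pow, mul_one] at h1
  linarith

lemma uu_triangle (m : ℕ) (A B C : VV m) (h1 : uu m A B ≠ 0) (h2 : uu m A C ≠ 0) :
    uu m B C = 0 := by
  unfold uu at h1 h2 ⊢
  have h1' : (A.1 ∩ B.1).card ≤ m := by by_contra h; simp [h] at h1
  have h2' : (A.1 ∩ C.1).card ≤ m := by by_contra h; simp [h] at h2
  rw [if_neg]
  intro h3
  have hA := A.2
  have hB := B.2
  have hC := C.2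
  have e1 := Finset.card_union_add_card_inter A.1 B.1
  have e2 := Finset.card_union_add_card_inter (A.1 ∪ B.1) C.1
  have e3 : ((A.1 ∪ B.1) ∩ C.1).card ≤ (A.1 ∩ C.1).card + (B.1 ∩ C.1).card := by
    rw [Finset.union_inter_distrib_right]
    exact Finset.card_union_le _ _
  have e4 : (A.1 ∪ B.1 ∪ C.1).card ≤ 6 * m + 4 := by
    have := Finset.card_le_univ (A.1 ∪ B.1 ∪ C.1)
    simpa using this
  omega

/-- the Vandermonde coefficients -/
noncomputable def cc (m i : ℕ) : ℤ := Ring.choose (-(m + 1 : ℤ)) i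

lemma vandermonde (m x : ℕ) :
    Ring.choose ((x : ℤ) - (m + 1)) (2 * m + 1)
      = ∑ i ∈ range (2 * m + 2), (x.choose i : ℤ) * cc m (2 * m + 1 - i) := by
  rw [sub_eq_add_neg, Ring.add_choose_eq _ (Commute.all _ _),
    Finset.Nat.sum_antidiagonal_eq_sum_range_succ_mk]
  refine Finset.sum_congr rfl fun i _ => ?_
  rw [Ring.choose_natCast]
  rfl

lemma factor (m : ℕ) (A B : Finset (Fin (6 * m + 4))) :
    ∑ I : RR m, ((if I.1 ⊆ A then (cc m (2 * m + 1 - I.1.card) : ℝ) else 0) *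
      (if I.1 ⊆ B then 1 else 0)) = (Ring.choose (((A ∩ B).card : ℤ) - (m + 1)) (2 * m + 1) : ℤ) := by
  have h0 : ∀ I : RR m, ((if I.1 ⊆ A then
      (cc m (2 * m + 1 - I.1.card) : ℝ) else 0) *
      (if I.1 ⊆ B then 1 else 0)) =
      (fun I : Finset (Fin (6 * m + 4)) => if I ⊆ A ∩ B then
        (cc m (2 * m + 1 - I.card) : ℝ) else 0) I.1 := by
    intro I
    simp only [Finset.subset_inter_iff]
    by_cases h1 : I.1 ⊆ A <;> by_cases h2 : I.1 ⊆ B <;> simp [h1, h2]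
  rw [Finset.sum_congr rfl fun I _ => h0 I]
  rw [← Finset.sum_subtype (univ.filter fun I : Finset (Fin (6 * m + 4)) => I.card ≤ 2 * m + 1)
    (p := fun I => I.card ≤ 2 * m + 1) (by simp)
    (fun I : Finset (Fin (6 * m + 4)) => if I ⊆ A ∩ B then
        (cc m (2 * m + 1 - I.card) : ℝ) else 0)]
  rw [vandermonde, ← Finset.sum_filter, Finset.filter_filter]
  rw [← Finset.sum_fiberwise_of_maps_to (s := univ.filter fun I : Finset (Fin (6 * m + 4)) =>
    I.card ≤ 2 * m + 1 ∧ I ⊆ A ∩ B) (t := range (2 * m + 2)) (g := Finset.card)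
    (by intro I hI; simp at hI ⊢; omega)]
  push_cast
  refine Finset.sum_congr rfl fun i hi => ?_
  have h1 : ∀ I ∈ (univ.filter fun I : Finset (Fin (6 * m + 4)) =>
      I.card ≤ 2 * m + 1 ∧ I ⊆ A ∩ B).filter (fun I => I.card = i),
      (cc m (2 * m + 1 - I.card) : ℝ)
        = (cc m (2 * m + 1 - i) : ℝ) := by
    intro I hI
    simp at hI
    rw [hI.2]
  rw [Finset.sum_congr rfl h1, Finset.sum_const, nsmul_eq_mul]
  congr 2
  rw [← Finset.card_powersetCard]
  congr 1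
  ext I
  simp only [Finset.mem_filter, Finset.mem_univ, true_and, Finset.mem_powersetCard]
  simp at hi
  constructor
  · rintro ⟨⟨h1, h2⟩, h3⟩; exact ⟨h2, h3⟩
  · rintro ⟨h2, h3⟩; exact ⟨⟨by omega, h2⟩, h3⟩

lemma value_diag (m : ℕ) : Ring.choose (((3 * m + 2 : ℕ) : ℤ) - (m + 1)) (2 * m + 1) = 1 := by
  have : ((3 * m + 2 : ℕ) : ℤ) - (m + 1) = ((2 * m + 1 : ℕ) : ℤ) := by push_cast; ring
  rw [this, Ring.choose_natCast]
  simp

lemma value_off (m x : ℕ) (hx : x < 3 * m + 2) :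
    Ring.choose ((x : ℤ) - (m + 1)) (2 * m + 1)
      = -((if x ≤ m then (3 * m + 1 - x).choose (2 * m + 1) else 0 : ℕ) : ℤ) := by
  by_cases h : x ≤ m
  · rw [if_pos h]
    have e : (x : ℤ) - (m + 1) = -(((m + 1 - x : ℕ) : ℤ)) := by
      rw [Nat.cast_sub (by omega)]; push_cast; ring
    rw [e, Ring.choose_neg]
    have e2 : ((m + 1 - x : ℕ) : ℤ) + ((2 * m + 1 : ℕ) : ℤ) - 1 = ((3 * m + 1 - x : ℕ) : ℤ) := by
      rw [Nat.cast_sub (by omega), Nat.cast_sub (by omega)]; push_cast; ring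
    rw [e2, Ring.choose_natCast]
    have e3 : Int.negOnePow ((2 * m + 1 : ℕ) : ℤ) = -1 := by
      apply Int.negOnePow_odd
      exact ⟨m, by push_cast; ring⟩
    rw [e3]
    simp
  · rw [if_neg h]
    have e : (x : ℤ) - (m + 1) = ((x - (m + 1) : ℕ) : ℤ) := by
      rw [Nat.cast_sub (by omega)]; push_cast; ring
    rw [e, Ring.choose_natCast, Nat.choose_eq_zero_of_lt (by omega)]
    simp

/-- left factor -/
noncomputable def PP (m : ℕ) (A : VV m) (I : RR m) : ℝ :=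
  if I.1 ⊆ A.1 then (cc m (2 * m + 1 - I.1.card) : ℝ) else 0

/-- right factor -/
noncomputable def QQ (m : ℕ) (I : RR m) (B : VV m) : ℝ := if I.1 ⊆ B.1 then 1 else 0

lemma PQ_diag (m : ℕ) (A : VV m) : ∑ r, PP m A r * QQ m r A = 1 := by
  unfold PP QQ
  rw [factor m A.1 A.1, Finset.inter_self, A.2, value_diag]
  simp

lemma PQ_off (m : ℕ) (A B : VV m) (hAB : A ≠ B) :
    ∑ r, PP m A r * QQ m r B = -(uu m A B : ℝ) := by
  unfold PP QQ
  have hlt : (A.1 ∩ B.1).card < 3 * m + 2 := by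
    rcases lt_or_eq_of_le (Finset.card_le_card (Finset.inter_subset_left : A.1 ∩ B.1 ⊆ A.1)) with h | h
    · rwa [A.2] at h
    · exfalso
      apply hAB
      have h1 : A.1 ∩ B.1 = A.1 := Finset.eq_of_subset_of_card_le Finset.inter_subset_left h.ge
      have h2 : A.1 ⊆ B.1 := Finset.inter_eq_left.1 h1
      exact Subtype.ext (Finset.eq_of_subset_of_card_le h2 (by rw [A.2, B.2]))
  rw [factor m A.1 B.1, value_off m _ hlt]
  unfold uu
  push_cast
  rfl

lemma card_RR (m : ℕ) : Fintype.card (RR m) * 2 ^ (4 * m + 3) ≤ 3 ^ (6 * m + 4) := by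
  have h := Fintype.sum_pow_mul_eq_add_pow (Fin (6 * m + 4)) (1 : ℕ) 2
  rw [Fintype.card_fin] at h
  have h2 : (3 : ℕ) ^ (6 * m + 4) = ∑ s : Finset (Fin (6 * m + 4)), 2 ^ (6 * m + 4 - s.card) := by
    rw [show (3 : ℕ) = 1 + 2 by norm_num, ← h]
    simp
  rw [h2, Fintype.card_subtype, ← smul_eq_mul, ← Finset.sum_const]
  calc ∑ _s ∈ univ.filter (fun I : Finset (Fin (6 * m + 4)) => I.card ≤ 2 * m + 1), 2 ^ (4 * m + 3)
      ≤ ∑ s ∈ univ.filter (fun I : Finset (Fin (6 * m + 4)) => I.card ≤ 2 * m + 1),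
          2 ^ (6 * m + 4 - s.card) := by
        refine Finset.sum_le_sum fun s hs => ?_
        simp at hs
        exact Nat.pow_le_pow_right (by norm_num) (by omega)
    _ ≤ _ := Finset.sum_le_sum_of_subset (Finset.filter_subset _ _)

lemma card_VV (m : ℕ) : Fintype.card (VV m) = Nat.centralBinom (3 * m + 2) := by
  rw [Fintype.card_subtype, Nat.centralBinom_eq_two_mul_choose]
  have : (univ.filter fun A : Finset (Fin (6 * m + 4)) => A.card = 3 * m + 2)
      = powersetCard (3 * m + 2) univ := by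
    ext A; simp [Finset.mem_powersetCard]
  rw [this, Finset.card_powersetCard, Finset.card_univ, Fintype.card_fin]
  congr 1
  ring

lemma card_VV_le (m : ℕ) : Fintype.card (VV m) ≤ 16 * 64 ^ m := by
  rw [card_VV, Nat.centralBinom_eq_two_mul_choose]
  calc _ ≤ 2 ^ (2 * (3 * m + 2)) := Nat.choose_le_two_pow _ _
    _ = 16 * 64 ^ m := by
      rw [show 2 * (3 * m + 2) = 6 * m + 4 by ring, pow_add, pow_mul]; norm_num; ring

lemma le_card_VV (m : ℕ) : 16 * 64 ^ m ≤ 2 * (3 * m + 2) * Fintype.card (VV m) := by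
  rw [card_VV]
  calc 16 * 64 ^ m = 4 ^ (3 * m + 2) := by rw [pow_add, pow_mul]; norm_num; ring
    _ ≤ _ := Nat.four_pow_le_two_mul_self_mul_centralBinom _ (by omega)

end Pool.Agent.TH474.RR
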