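import Mathlib

/-!
Lifting an integer matrix with unit diagonal and nonpositive off-diagonal entries to a
`0/1` matrix with unit diagonal, using parallel classes of the affine plane over `ZMod p`.
-/

namespace Pool.Agent.TH474.RR

open Finset

/-- the label of the line of slope `c` through the point `a` of the affine plane. -/
def ell (p : ℕ) (c : ℕ) (a : ZMod p × ZMod p) : ZMod p := a.2 - (c : ZMod p) * a.1

lemma ell_unique {p : ℕ} [Fact p.Prime] {c c' : ℕ} (hc : c < p) (hc' : c' < p)
    {a b : ZMod p × ZMod p} (hab : a ≠ b) (h : ell p c a = ell p c b)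
    (h' : ell p c' a = ell p c' b) : c = c' := by
  unfold ell at h h'
  by_contra hne
  have hcc : (c : ZMod p) ≠ (c' : ZMod p) := by
    intro hq
    apply hne
    have := (ZMod.natCast_eq_natCast_iff' c c' p).1 hq
    rwa [Nat.mod_eq_of_lt hc, Nat.mod_eq_of_lt hc'] at this
  have h1 : ((c : ZMod p) - c') * (a.1 - b.1) = 0 := by
    linear_combination h' - h
  have h2 : a.1 = b.1 := by
    rcases mul_eq_zero.1 h1 with h3 | h3
    · exact absurd (sub_eq_zero.1 h3) hcc
    · exact sub_eq_zero.1 h3
  have h4 : a.2 = b.2 := by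
    rw [h2] at h
    linear_combination h
  exact hab (Prod.ext h2 h4)

/-- the lifted graph; `u i j` is the number of parallel classes used between `i` and `j`. -/
def lift {V : Type} (p : ℕ) (u : V → V → ℕ) (hu : ∀ i j, u i j = u j i) :
    SimpleGraph (V × (ZMod p × ZMod p)) where
  Adj x y := x.1 ≠ y.1 ∧ x.2 ≠ y.2 ∧ ∃ c, c < u x.1 y.1 ∧ ell p c x.2 = ell p c y.2
  symm := by
    constructor
    rintro x y ⟨h1, h2, c, h3, h4⟩
    exact ⟨h1.symm, h2.symm, c, by rwa [hu], h4.symm⟩
  loopless := by
    constructor
    rintro x ⟨h1, -⟩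
    exact h1 rfl

lemma lift_cliqueFree {V : Type} (p : ℕ) (u : V → V → ℕ) (hu : ∀ i j, u i j = u j i)
    (ht : ∀ i j k, i ≠ j → i ≠ k → j ≠ k → u i j ≠ 0 → u i k ≠ 0 → u j k = 0) :
    (lift p u hu).CliqueFree 3 := by
  classical
  intro s hs
  rw [SimpleGraph.is3Clique_iff] at hs
  obtain ⟨a, b, c, h1, h2, h3, -⟩ := hs
  obtain ⟨h11, -, c1, h12, -⟩ := h1
  obtain ⟨h21, -, c2, h22, -⟩ := h2
  obtain ⟨h31, -, c3, h32, -⟩ := h3
  have := ht a.1 b.1 c.1 h11 h21 h31 (by omega) (by omega)
  omega

open Classical in
/-- rank bound for the lift (restricted along an injection). -/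
theorem lift_rank {V R : Type} [Fintype V] [Fintype R] (p w n : ℕ) [Fact p.Prime]
    (hw : w ≤ p) (u : V → V → ℕ) (hu : ∀ i j, u i j = u j i) (huw : ∀ i j, i ≠ j → u i j ≤ w)
    (P : V → R → ℝ) (Q : R → V → ℝ)
    (hd : ∀ i, ∑ r, P i r * Q r i = 1) (ho : ∀ i j, i ≠ j → ∑ r, P i r * Q r j = -(u i j : ℝ))
    (f : Fin n ↪ V × (ZMod p × ZMod p)) :
    (((lift p u hu).comap f).adjMatrix ℝ + 1).rank
      ≤ Fintype.card R * p ^ 2 + Fintype.card V * (w * p) := by
  let X : Matrix (Fin n) ((R × (ZMod p × ZMod p)) ⊕ (V × (Fin w × ZMod p))) ℝ := fun k s =>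
    Sum.elim (fun ra => P (f k).1 ra.1 * (if (f k).2 = ra.2 then 1 else 0))
      (fun vcz => (if (f k).1 ≠ vcz.1 ∧ (vcz.2.1 : ℕ) < u (f k).1 vcz.1 then 1 else 0) *
        (if ell p vcz.2.1 (f k).2 = vcz.2.2 then 1 else 0)) s
  let Y : Matrix ((R × (ZMod p × ZMod p)) ⊕ (V × (Fin w × ZMod p))) (Fin n) ℝ := fun s k =>
    Sum.elim (fun ra => Q ra.1 (f k).1 * (if (f k).2 = ra.2 then 1 else 0))
      (fun vcz => (if (f k).1 = vcz.1 then 1 else 0) *
        (if ell p vcz.2.1 (f k).2 = vcz.2.2 then 1 else 0)) s
  have key : ((lift p u hu).comap f).adjMatrix ℝ + 1 = X * Y := by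
    ext k k'
    have e1 : (X * Y) k k' = (if (f k).2 = (f k').2 then ∑ r, P (f k).1 r * Q r (f k').1 else 0)
        + ∑ c : Fin w, (if (f k).1 ≠ (f k').1 ∧ (c : ℕ) < u (f k).1 (f k').1 then
          (if ell p c (f k).2 = ell p c (f k').2 then 1 else 0) else (0 : ℝ)) := by
      rw [Matrix.mul_apply, Fintype.sum_sum_type, Fintype.sum_prod_type, Fintype.sum_prod_type]
      congr 1
      · simp only [X, Y, Sum.elim_inl]
        by_cases hh : (f k).2 = (f k').2
        · rw [if_pos hh]
          refine Finset.sum_congr rfl fun r _ => ?_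
          rw [Finset.sum_eq_single (f k).2]
          · simp [hh]
          · intro b _ hb
            simp [Ne.symm hb]
          · simp
        · rw [if_neg hh]
          refine Finset.sum_eq_zero fun r _ => Finset.sum_eq_zero fun b _ => ?_
          by_cases hb : (f k).2 = b
          · have : ¬ (f k').2 = b := fun hb' => hh (hb.trans hb'.symm)
            simp [this]
          · simp [hb]
      · simp only [X, Y, Sum.elim_inr]
        rw [Finset.sum_eq_single (f k').1]
        · rw [Fintype.sum_prod_type]
          refine Finset.sum_congr rfl fun c _ => ?_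
          rw [Finset.sum_eq_single (ell p c (f k').2)]
          · simp only [if_true, mul_one]
            split_ifs <;> simp
          · intro b _ hb
            simp [Ne.symm hb]
          · simp
        · intro b _ hb
          simp [Ne.symm hb]
        · simp
    rw [e1, Matrix.add_apply, SimpleGraph.adjMatrix_apply]
    by_cases hkk : k = k'
    · subst hkk
      simp [hd]
    · have hfk : f k ≠ f k' := fun h => hkk (f.injective h)
      rw [Matrix.one_apply_ne hkk, add_zero]
      by_cases h1 : (f k).1 = (f k').1
      · have h2 : (f k).2 ≠ (f k').2 := fun h => hfk (Prod.ext h1 h)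
        rw [if_neg h2]
        have : ¬ ((lift p u hu).comap f).Adj k k' := fun h => h.1 h1
        rw [if_neg this]
        simp [h1]
      · by_cases h2 : (f k).2 = (f k').2
        · have : ¬ ((lift p u hu).comap f).Adj k k' := fun h => h.2.1 h2
          rw [if_neg this, if_pos h2, ho _ _ h1]
          have h3 : ∑ c : Fin w, (if (f k).1 ≠ (f k').1 ∧ (c : ℕ) < u (f k).1 (f k').1 then
              (if ell p c (f k).2 = ell p c (f k').2 then 1 else 0) else (0 : ℝ))
              = (u (f k).1 (f k').1 : ℝ) := by
            rw [h2]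
            simp only [if_true]
            have : ∀ c : Fin w, (if (f k).1 ≠ (f k').1 ∧ (c : ℕ) < u (f k).1 (f k').1 then (1 : ℝ)
                else 0) = if (c : ℕ) < u (f k).1 (f k').1 then 1 else 0 := by
              intro c; simp [h1]
            simp_rw [this]
            rw [Finset.sum_boole]
            have hcard : (univ.filter fun c : Fin w => (c : ℕ) < u (f k).1 (f k').1).card
                = u (f k).1 (f k').1 := by
              have := huw _ _ h1
              rw [Fin.card_filter_val_lt]
              omega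
            rw [hcard]
          rw [h3]; ring
        · rw [if_neg h2, zero_add]
          by_cases h3 : ∃ c, c < u (f k).1 (f k').1 ∧ ell p c (f k).2 = ell p c (f k').2
          · obtain ⟨c, hc, hl⟩ := h3
            have hadj : ((lift p u hu).comap f).Adj k k' := ⟨h1, h2, c, hc, hl⟩
            rw [if_pos hadj]
            have hcw : c < w := lt_of_lt_of_le hc (huw _ _ h1)
            rw [Finset.sum_eq_single (⟨c, hcw⟩ : Fin w)]
            · simp [h1, hc, hl]
            · intro b _ hb
              by_cases hbl : ell p b (f k).2 = ell p b (f k').2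
              · exfalso
                apply hb
                apply Fin.ext
                exact ell_unique (lt_of_lt_of_le b.2 hw) (lt_of_lt_of_le hcw hw) h2 hbl hl
              · simp [hbl]
            · simp
          · have hadj : ¬ ((lift p u hu).comap f).Adj k k' := fun h => h3 h.2.2
            rw [if_neg hadj]
            symm
            refine Finset.sum_eq_zero fun c _ => ?_
            by_cases hc : (c : ℕ) < u (f k).1 (f k').1
            · have : ¬ ell p c (f k).2 = ell p c (f k').2 := fun h => h3 ⟨c, hc, h⟩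
              simp [this]
            · simp [hc]
  rw [key]
  calc (X * Y).rank ≤ X.rank := Matrix.rank_mul_le_left X Y
    _ ≤ Fintype.card ((R × (ZMod p × ZMod p)) ⊕ (V × (Fin w × ZMod p))) := Matrix.rank_le_card_width X
    _ = Fintype.card R * p ^ 2 + Fintype.card V * (w * p) := by
      simp only [Fintype.card_sum, Fintype.card_prod, Fintype.card_fin, ZMod.card]
      ring

end Pool.Agent.TH474.RR
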