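import Mathlib
import Pool.Agent.TH474.RR.Lift
import Pool.Agent.TH474.RR.Base

/-!
The estimates: for every `n` there is a triangle-free graph on `n` vertices with
`rank (A + I) ≤ 1100000 * n ^ (25/26)`.
-/

namespace Pool.Agent.TH474.RR

open Finset

lemma bern (m : ℕ) : (3 * (m : ℝ) + 2) * (729 / 1024) ^ m ≤ 1120 * (10000 / 14009) ^ m := by
  have h1 : (1 : ℝ) + m * (3 / 1120) ≤ (1 + 3 / 1120) ^ m :=
    one_add_mul_le_pow (by norm_num) m
  have h2 : (1 + 3 / 1120 : ℝ) ^ m * (729 / 1024) ^ m ≤ (10000 / 14009) ^ m := by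
    rw [← mul_pow]
    exact pow_le_pow_left₀ (by norm_num) (by norm_num) m
  have h3 : (0 : ℝ) < (729 / 1024) ^ m := by positivity
  have hm : (0 : ℝ) ≤ m := Nat.cast_nonneg m
  nlinarith

open Classical in
theorem exists_graph (n : ℕ) (hn : 1 ≤ n) :
    ∃ G : SimpleGraph (Fin n), G.CliqueFree 3 ∧
      ((G.adjMatrix ℝ + 1).rank : ℝ) ≤ 1100000 * (n : ℝ) ^ (25 / 26 : ℝ) := by
  obtain ⟨m, hm⟩ : ∃ m, m = Nat.log 6400 n := ⟨_, rfl⟩
  have hm1 : 6400 ^ m ≤ n := by rw [hm]; exact Nat.pow_log_le_self _ (by omega)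
  have hm2 : n < 6400 ^ (m + 1) := by rw [hm]; exact Nat.lt_pow_succ_log_self (by norm_num) n
  obtain ⟨n0, hn0⟩ : ∃ n0, n0 = Fintype.card (VV m) := ⟨_, rfl⟩
  obtain ⟨cR, hcR⟩ : ∃ cR, cR = Fintype.card (RR m) := ⟨_, rfl⟩
  have hn0le : n0 ≤ 16 * 64 ^ m := hn0 ▸ card_VV_le m
  have hlen0 : 16 * 64 ^ m ≤ 2 * (3 * m + 2) * n0 := hn0 ▸ le_card_VV m
  have hcRle : cR * 2 ^ (4 * m + 3) ≤ 3 ^ (6 * m + 4) := hcR ▸ card_RR m
  have hn0pos : 0 < n0 := by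
    rcases Nat.eq_zero_or_pos n0 with h | h
    · rw [h] at hlen0; simp at hlen0
    · exact h
  obtain ⟨q, hq⟩ : ∃ q, q = Nat.sqrt (n / n0) := ⟨_, rfl⟩
  obtain ⟨p, hp, hp1, hp2⟩ := Nat.exists_prime_lt_and_le_two_mul (q + 2 * 10 ^ m) (by positivity)
  have : Fact p.Prime := ⟨hp⟩
  obtain ⟨w, hw⟩ : ∃ w, w = (3 * m + 1).choose (2 * m + 1) := ⟨_, rfl⟩
  have hw4 : w * (2 * 4 ^ m) ≤ 3 * 27 ^ m := hw ▸ ww_le m
  have hwp : w ≤ p := by
    have h1 : w * (2 * 4 ^ m) ≤ p * (2 * 4 ^ m) := by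
      calc w * (2 * 4 ^ m) ≤ 3 * 27 ^ m := hw4
        _ ≤ 4 * 40 ^ m := by gcongr <;> norm_num
        _ = (2 * 10 ^ m) * (2 * 4 ^ m) := by
          rw [show (40 : ℕ) = 10 * 4 by norm_num, mul_pow]; ring
        _ ≤ p * (2 * 4 ^ m) := Nat.mul_le_mul_right _ (by omega)
    exact Nat.le_of_mul_le_mul_right h1 (by positivity)
  have hq1 : q ^ 2 * n0 ≤ n := by
    calc q ^ 2 * n0 ≤ (n / n0) * n0 := Nat.mul_le_mul_right _ (by rw [hq]; exact Nat.sqrt_le' _)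
      _ ≤ n := Nat.div_mul_le_self _ _
  have hcard : n ≤ Fintype.card (VV m × (ZMod p × ZMod p)) := by
    rw [Fintype.card_prod, Fintype.card_prod, ZMod.card, ← hn0]
    have h1 : n / n0 < (q + 1) ^ 2 := by rw [hq]; exact Nat.lt_succ_sqrt' _
    have h2 : (q + 1) ^ 2 ≤ p * p := by
      rw [← pow_two]; exact Nat.pow_le_pow_left (by omega) 2
    have h3 : n < n0 * (n / n0 + 1) := Nat.lt_mul_div_succ n hn0pos
    calc n ≤ n0 * (n / n0 + 1) := h3.le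
      _ ≤ n0 * (p * p) := Nat.mul_le_mul_left _ (by omega)
  have hpn : p ^ 2 * n0 ≤ 520 * n := by
    have h1 : p ≤ 2 * q + 4 * 10 ^ m := by omega
    have h2 : p ^ 2 ≤ 8 * q ^ 2 + 32 * 100 ^ m := by
      have h3 : (100 : ℕ) ^ m = 10 ^ m * 10 ^ m := by rw [← mul_pow]; norm_num
      rw [h3]
      generalize 10 ^ m = y at *
      have : p ^ 2 ≤ (2 * q + 4 * y) ^ 2 := Nat.pow_le_pow_left h1 2
      nlinarith [sq_nonneg ((q : ℤ) - 2 * y), two_mul_le_add_sq (q : ℕ) (2 * y)]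
    calc p ^ 2 * n0 ≤ (8 * q ^ 2 + 32 * 100 ^ m) * n0 := Nat.mul_le_mul_right _ h2
      _ = 8 * (q ^ 2 * n0) + 32 * 100 ^ m * n0 := by ring
      _ ≤ 8 * n + 32 * 100 ^ m * (16 * 64 ^ m) := by gcongr
      _ = 8 * n + 512 * 6400 ^ m := by
        rw [show (6400 : ℕ) = 100 * 64 by norm_num, mul_pow]; ring
      _ ≤ 520 * n := by omega
  obtain ⟨f⟩ : Nonempty (Fin n ↪ VV m × (ZMod p × ZMod p)) := by
    rw [Function.Embedding.nonempty_iff_card_le, Fintype.card_fin]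
    exact hcard
  refine ⟨(lift p (uu m) (uu_symm m)).comap f, ?_, ?_⟩
  · exact SimpleGraph.CliqueFree.comap (SimpleGraph.Embedding.comap f _).isContained
      (lift_cliqueFree p (uu m) (uu_symm m) (fun i j k _ _ _ h1 h2 => uu_triangle m i j k h1 h2))
  · have hr := lift_rank p w n hwp (uu m) (uu_symm m) (fun i j _ => hw ▸ uu_le m i j)
      (PP m) (QQ m) (PQ_diag m) (PQ_off m) f
    rw [← hn0, ← hcR] at hr
    have hr' : ((((lift p (uu m) (uu_symm m)).comap f).adjMatrix ℝ + 1).rank : ℝ)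
        ≤ (cR : ℝ) * p ^ 2 + n0 * (w * p) := by exact_mod_cast hr
    refine hr'.trans ?_
    have hn0R : (0 : ℝ) < n0 := by exact_mod_cast hn0pos
    have hnR : (0 : ℝ) < n := by exact_mod_cast hn
    have hpnR : (p : ℝ) ^ 2 * n0 ≤ 520 * n := by exact_mod_cast hpn
    have hlen0R : (16 : ℝ) * 64 ^ m ≤ 2 * (3 * m + 2) * n0 := by exact_mod_cast hlen0
    have hcRleR : (cR : ℝ) * 2 ^ (4 * m + 3) ≤ 3 ^ (6 * m + 4) := by exact_mod_cast hcRle
    have hcR0 : (cR : ℝ) ≤ 81 / 8 * (729 / 16) ^ m := by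
      have e1 : (2 : ℝ) ^ (4 * m + 3) = 8 * 16 ^ m := by rw [pow_add, pow_mul]; norm_num; ring
      have e2 : (3 : ℝ) ^ (6 * m + 4) = 81 * 729 ^ m := by rw [pow_add, pow_mul]; norm_num; ring
      rw [e1, e2] at hcRleR
      rw [div_pow, ← mul_div_assoc, le_div_iff₀ (by positivity)]
      linarith
    have hcRn0 : (cR : ℝ) ≤ 1418 * (10000 / 14009) ^ m * n0 := by
      have hb := bern m
      have e3 : (729 / 16 : ℝ) ^ m = 64 ^ m * (729 / 1024) ^ m := by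
        rw [← mul_pow]; norm_num
      have h729 : (0 : ℝ) < (729 / 1024) ^ m := by positivity
      have h34 : (0 : ℝ) < (10000 / 14009) ^ m := by positivity
      calc (cR : ℝ) ≤ 81 / 8 * (729 / 16) ^ m := hcR0
        _ = 81 / 128 * (16 * 64 ^ m) * (729 / 1024) ^ m := by rw [e3]; ring
        _ ≤ 81 / 128 * (2 * (3 * m + 2) * n0) * (729 / 1024) ^ m := by gcongr
        _ = 81 / 64 * ((3 * m + 2) * (729 / 1024) ^ m) * n0 := by ring
        _ ≤ 81 / 64 * (1120 * (10000 / 14009) ^ m) * n0 := by gcongr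
        _ ≤ 1418 * (10000 / 14009) ^ m * n0 := by nlinarith [mul_pos h34 hn0R]
    have ht1 : (cR : ℝ) * p ^ 2 ≤ 737360 * n * (10000 / 14009) ^ m := by
      have h34 : (0 : ℝ) < (10000 / 14009) ^ m := by positivity
      calc (cR : ℝ) * p ^ 2 ≤ 1418 * (10000 / 14009) ^ m * n0 * p ^ 2 := by gcongr
        _ = (1418 : ℝ) * (10000 / 14009) ^ m * ((p : ℝ) ^ 2 * n0) := by ring
        _ ≤ (1418 : ℝ) * (10000 / 14009) ^ m * (520 * n) := by gcongr
        _ = 737360 * n * (10000 / 14009) ^ m := by ring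
    have ht2 : (n0 : ℝ) * (w * p) ≤ 520 * n * (10000 / 14009) ^ m := by
      have hp16 : (2 * 10 ^ m : ℝ) ≤ p := by
        have : 2 * 10 ^ m ≤ p := by omega
        exact_mod_cast this
      have hw4R : (w : ℝ) * (2 * 4 ^ m) ≤ 3 * 27 ^ m := by exact_mod_cast hw4
      have hwR : (w : ℝ) ≤ (27 / 40) ^ m * (2 * 10 ^ m) := by
        have e40 : (27 / 40 : ℝ) ^ m * (2 * 10 ^ m) = 2 * 27 ^ m / 4 ^ m := by
          rw [show (27 / 40 : ℝ) = 27 / (10 * 4) by norm_num, div_pow, mul_pow]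
          field_simp
        rw [e40, le_div_iff₀ (by positivity)]
        have : (0 : ℝ) < 27 ^ m := by positivity
        linarith
      have hle : ((27 : ℝ) / 40) ^ m ≤ (10000 / 14009) ^ m :=
        pow_le_pow_left₀ (by norm_num) (by norm_num) m
      calc (n0 : ℝ) * (w * p) ≤ n0 * (((27 / 40) ^ m * (2 * 10 ^ m)) * p) := by gcongr
        _ = (27 / 40 : ℝ) ^ m * ((n0 : ℝ) * ((2 * 10 ^ m) * p)) := by ring
        _ ≤ (27 / 40 : ℝ) ^ m * ((n0 : ℝ) * (p * p)) := by gcongr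
        _ = (27 / 40 : ℝ) ^ m * ((p : ℝ) ^ 2 * n0) := by ring
        _ ≤ (10000 / 14009 : ℝ) ^ m * (520 * n) := by gcongr
        _ = 520 * n * (10000 / 14009) ^ m := by ring
    have hroot : (n : ℝ) ^ (1 / 26 : ℝ) ≤ (14009 / 10000) ^ (m + 1) := by
      have h1 : (n : ℝ) ≤ ((14009 / 10000 : ℝ) ^ (m + 1)) ^ (26 : ℕ) := by
        have h2 : (n : ℝ) ≤ (6400 : ℝ) ^ (m + 1) := by exact_mod_cast hm2.le
        have h3 : (6400 : ℝ) ^ (m + 1) ≤ ((14009 / 10000 : ℝ) ^ (26 : ℕ)) ^ (m + 1) :=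
          pow_le_pow_left₀ (by norm_num) (by norm_num) _
        rw [← pow_mul, mul_comm (m + 1) 26, pow_mul]
        exact h2.trans h3
      have h4 : (((14009 / 10000 : ℝ) ^ (m + 1)) ^ (26 : ℕ)) ^ (1 / 26 : ℝ)
          = (14009 / 10000 : ℝ) ^ (m + 1) := by
        rw [← Real.rpow_natCast ((14009 / 10000 : ℝ) ^ (m + 1)) 26, ← Real.rpow_mul (by positivity)]
        norm_num
      calc (n : ℝ) ^ (1 / 26 : ℝ) ≤ (((14009 / 10000 : ℝ) ^ (m + 1)) ^ (26 : ℕ)) ^ (1 / 26 : ℝ) :=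
            Real.rpow_le_rpow hnR.le h1 (by norm_num)
        _ = _ := h4
    have hsplit : (n : ℝ) = (n : ℝ) ^ (25 / 26 : ℝ) * (n : ℝ) ^ (1 / 26 : ℝ) := by
      rw [← Real.rpow_add hnR]; norm_num
    have hfin : (n : ℝ) * (10000 / 14009) ^ m ≤ 14009 / 10000 * (n : ℝ) ^ (25 / 26 : ℝ) := by
      have hpos : (0 : ℝ) < (n : ℝ) ^ (25 / 26 : ℝ) := Real.rpow_pos_of_pos hnR _
      have h34 : (0 : ℝ) < (10000 / 14009) ^ m := by positivity
      calc (n : ℝ) * (10000 / 14009) ^ m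
          = (n : ℝ) ^ (25 / 26 : ℝ) * (n : ℝ) ^ (1 / 26 : ℝ) * (10000 / 14009) ^ m := by
            rw [← hsplit]
        _ ≤ (n : ℝ) ^ (25 / 26 : ℝ) * (14009 / 10000) ^ (m + 1) * (10000 / 14009) ^ m := by gcongr
        _ = 14009 / 10000 * (n : ℝ) ^ (25 / 26 : ℝ) *
            ((14009 / 10000) ^ m * (10000 / 14009) ^ m) := by ring
        _ = 14009 / 10000 * (n : ℝ) ^ (25 / 26 : ℝ) := by
          rw [← mul_pow]; norm_num
    have hpos : (0 : ℝ) < (n : ℝ) ^ (25 / 26 : ℝ) := Real.rpow_pos_of_pos hnR _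
    calc (cR : ℝ) * p ^ 2 + n0 * (w * p)
        ≤ 737360 * n * (10000 / 14009) ^ m + 520 * n * (10000 / 14009) ^ m := add_le_add ht1 ht2
      _ = 737880 * (n * (10000 / 14009) ^ m) := by ring
      _ ≤ 737880 * (14009 / 10000 * (n : ℝ) ^ (25 / 26 : ℝ)) := by gcongr
      _ ≤ 1100000 * (n : ℝ) ^ (25 / 26 : ℝ) := by linarith

end Pool.Agent.TH474.RR
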